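import Pool.Agent.Helper99.PG.Goals

/-!
PROJECT C2 (MP_2b0227_gt), packet PG-HALL: Hall's theorem for the choices of circles.
-/

set_option autoImplicit false

namespace Pool.Agent.Helper93.PG

open Pool.Agent.Helper99.PG
open scoped Classical

/-- the number of slots on the circles of `U` -/
theorem card_slots {C : Type} (c : C → ℕ) (U : Finset C) :
    (U.sigma (fun x => (Finset.univ : Finset (Fin (c x))))).card = ∑ x ∈ U, c x := by
  rw [Finset.card_sigma]
  exact Finset.sum_congr rfl fun x _ => by rw [Finset.card_univ, Fintype.card_fin]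

/-- HALL -/
theorem hall : Pool.Agent.Helper99.PG.GoalHall := by
  intro V _ _ G W c hc hU
  let t : {v // v ∈ W} → Finset (Σ x : G.C, Fin (c x)) := fun v =>
    ({G.lf (some v.1), G.rt (some v.1)} : Finset G.C).sigma (fun x => (Finset.univ : Finset (Fin (c x))))
  have hcond : ∀ s : Finset {v // v ∈ W}, s.card ≤ (s.biUnion t).card := by
    intro s
    let U : Finset G.C := s.biUnion fun v => {G.lf (some v.1), G.rt (some v.1)}
    have h1 : (s.card : ℤ) ≤ Pool.Agent.Helper99.PG.inner G W U := by
      unfold Pool.Agent.Helper99.PG.inner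
      rw [Nat.cast_le, ← Finset.card_map (Function.Embedding.subtype (fun v => v ∈ W))]
      apply Finset.card_le_card
      intro v hv
      obtain ⟨w, hw, rfl⟩ := Finset.mem_map.1 hv
      refine Finset.mem_filter.2 ⟨w.2, ?_, ?_⟩
      · exact Finset.mem_biUnion.2 ⟨w, hw, Finset.mem_insert_self _ _⟩
      · exact Finset.mem_biUnion.2 ⟨w, hw, Finset.mem_insert_of_mem (Finset.mem_singleton_self _)⟩
    have h2 : s.biUnion t = U.sigma (fun x => (Finset.univ : Finset (Fin (c x)))) := by
      ext y
      rw [Finset.mem_biUnion, Finset.mem_sigma, Finset.mem_biUnion]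
      constructor
      · rintro ⟨v, hv, hy⟩
        exact ⟨⟨v, hv, (Finset.mem_sigma.1 hy).1⟩, Finset.mem_univ _⟩
      · rintro ⟨⟨v, hv, hy⟩, _⟩
        exact ⟨v, hv, Finset.mem_sigma.2 ⟨hy, Finset.mem_univ _⟩⟩
    rw [h2, card_slots]
    have h3 := h1.trans (hU U)
    exact_mod_cast h3
  obtain ⟨f, hf, hft⟩ := (Finset.all_card_le_biUnion_card_iff_exists_injective t).1 hcond
  have hbij : Function.Bijective f := by
    refine (Fintype.bijective_iff_injective_and_card f).2 ⟨hf, ?_⟩
    rw [Fintype.card_coe, Fintype.card_sigma, ← hc]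
    exact Finset.sum_congr rfl fun x _ => (Fintype.card_fin _).symm
  let A : V → Bool := fun v =>
    if h : v ∈ W then decide (G.lf (some v) = (f ⟨v, h⟩).1) else true
  have hpick : ∀ v (h : v ∈ W), pick G A v = (f ⟨v, h⟩).1 := by
    intro v h
    have h1 := (Finset.mem_sigma.1 (hft ⟨v, h⟩)).1
    rw [Finset.mem_insert, Finset.mem_singleton] at h1
    unfold pick
    by_cases e : G.lf (some v) = (f ⟨v, h⟩).1
    · have hA : A v = true := by
        change (if h : v ∈ W then decide (G.lf (some v) = (f ⟨v, h⟩).1) else true) = true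
        rw [dif_pos h, decide_eq_true_iff]
        exact e
      rw [hA, if_pos rfl]
      exact e
    · have hA : A v = false := by
        change (if h : v ∈ W then decide (G.lf (some v) = (f ⟨v, h⟩).1) else true) = false
        rw [dif_pos h, decide_eq_false_iff_not]
        exact e
      rw [hA, if_neg Bool.false_ne_true]
      rcases h1 with h1 | h1
      · exact absurd h1.symm e
      · exact h1.symm
  refine ⟨A, fun v hv => dif_neg hv, fun C => ?_⟩
  have hcard : (W.filter fun v => pick G A v ∈ ({C} : Finset G.C)).card =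
      (({C} : Finset G.C).sigma (fun x => (Finset.univ : Finset (Fin (c x))))).card := by
    refine Finset.card_bij (fun v hv => f ⟨v, (Finset.mem_filter.1 hv).1⟩) ?_ ?_ ?_
    · intro v hv
      have h1 := (Finset.mem_filter.1 hv).2
      rw [hpick v (Finset.mem_filter.1 hv).1] at h1
      exact Finset.mem_sigma.2 ⟨h1, Finset.mem_univ _⟩
    · intro v hv w hw h
      exact congrArg Subtype.val (hf h)
    · intro y hy
      obtain ⟨⟨v, hv⟩, rfl⟩ := hbij.2 y
      refine ⟨v, Finset.mem_filter.2 ⟨hv, ?_⟩, rfl⟩
      rw [hpick v hv]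
      exact (Finset.mem_sigma.1 hy).1
  unfold chosen
  rw [hcard, card_slots, Finset.sum_singleton]

end Pool.Agent.Helper93.PG
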